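import Pool.Agent.helper41.HFE.SpecD

/-!
# Project HFE (MP_3221a1_ag), row SUF: the sufficient part (helper30)
-/

set_option autoImplicit false

open Polynomial Module Pool.Agent.HFN

namespace Pool.Agent.HFE

noncomputable section

lemma SUF_assoc (g g' : AA) (hg : g' ≠ 0) (h : Associated g g') :
    dX g = dX g' ∧ dY g = dY g' ∧ ∀ z, (ev z g = 0 ↔ ev z g' = 0) := by
  obtain ⟨u, hu⟩ := h
  have hu0 : (u : AA) ≠ 0 := u.ne_zero
  have hu1 : ((u⁻¹ : AAˣ) : AA) ≠ 0 := (u⁻¹).ne_zero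
  have hg0 : g ≠ 0 := by
    rintro rfl
    apply hg
    rw [← hu, zero_mul]
  have hX : dX (u : AA) = 0 := by
    have h1 := dX_mul hu0 hu1
    rw [Units.mul_inv, dX_one] at h1
    omega
  have hY : dY (u : AA) = 0 := by
    have h1 := dY_mul hu0 hu1
    rw [Units.mul_inv, dY_one] at h1
    omega
  refine ⟨?_, ?_, ?_⟩
  · rw [← hu, dX_mul hg0 hu0, hX, add_zero]
  · rw [← hu, dY_mul hg0 hu0, hY, add_zero]
  · intro z
    have h2 : ev z (u : AA) ≠ 0 := by
      intro h3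
      have h4 : ev z ((u : AA) * ((u⁻¹ : AAˣ) : AA)) = 1 := by rw [Units.mul_inv, ev_one]
      rw [ev_mul, h3, zero_mul] at h4
      exact zero_ne_one h4
    rw [← hu, ev_mul, mul_eq_zero]
    exact ⟨Or.inl, fun h => h.resolve_right h2⟩

theorem SUF : SUF_stmt := by
  intro hRZT hG hN hT hL hCore h h' M W b r hr hD
  obtain ⟨hMr, hcol, hrow, -, hb, -, hbr, hWM, hWr, hWc⟩ := hD
  obtain ⟨x, y, hx, hy, hW, hgen⟩ := hRZT h h' b M W hb hWr hWc
  have hM1 : 1 ≤ M.card := by omega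
  obtain ⟨hcard, -⟩ := hT h h' x y M hx hy hcol hrow hM1
  obtain ⟨hirr, hgX, hgY, hgev⟩ := hG b hb
  have hg0 : g0 b ≠ 0 := hirr.ne_zero
  refine ⟨Pool.Agent.helper29.JZ.ZZ x y M, hcard.trans hMr, ?_⟩
  have hBg : HBg x y M W 1 b := by
    intro g hg
    by_cases hass : Associated g (g0 b)
    · obtain ⟨h1, h2, h3⟩ := SUF_assoc g (g0 b) hg0 hass
      refine ⟨h1.trans hgX, h2.trans hgY, fun p _ => ?_⟩
      rw [h3, hgev, sub_eq_zero]
      exact (hW p.1 p.2).symm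
    · exfalso
      obtain ⟨hgi, hdd, hX1, hY1, h25, w, s, hw, hws, hv, -⟩ := hg
      rw [hcard] at h25 hw hws hv
      have h4 := hgen g hgi hX1 hY1 hass
      refine hN M.card (nn (Pool.Agent.helper29.JZ.ZZ x y M) g) w s (dX g) (dY g) b h25 hw hws hv hdd hX1
        hY1 h4 ?_ hb
      rw [one_mul] at hbr
      rw [hMr]
      exact hbr
  intro i j hO
  refine le_antisymm ?_ ?_
  · exact hCore h h' x y M W 1 b hx hy hcol hrow hM1 hBg i j (by rw [hMr]; exact hO)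
  · refine hL.1 h h' x y M W 1 b (g0 b) hx hy hirr hgX hgY le_rfl hb (Or.inl rfl) (fun p _ => ?_) i j
    rw [hgev, sub_eq_zero]
    exact (hW p.1 p.2).symm

end

end Pool.Agent.HFE
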