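import Pool.Agent.helper41.HFE.SpecK

/-!
# Project HFE (MP_3221a1_ag), row UXK: the upper bound for curves with `dX f ≤ 1` (helper30)
-/

set_option autoImplicit false

open Polynomial Module Pool.Agent.HFN

namespace Pool.Agent.HFE

noncomputable section

open Pool.Agent.helper29.JZ

lemma UXK_ph (n : ℕ) : ph (min 2 n) = ph n := by
  unfold ph
  rcases n with _ | _ | n
  · rfl
  · rfl
  · have h : min 2 (n + 1 + 1) = 2 := by omega
    rw [h]
    rfl

lemma UXK_chi (i j a b a' b' : ℕ) (ha : a ≤ a') (hb : b ≤ b') : chi i j a b ≤ chi i j a' b' := by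
  unfold chi
  exact Nat.sub_le_sub_left (Nat.mul_le_mul (by omega) (by omega)) _

lemma UXK_Df {h h' : ℕ} (M W : Finset (Fin h × Fin h')) (a b i j ε : ℕ) (hε : ε ≤ 1)
    (e' : Fin h → ℕ) (he' : ∀ k, e' k ≤ 2) (e : Fin h' → ℕ) (he : ∀ m, e m ≤ 2) :
    Lm M W ε e' e ≤ chi i j (ε * a + ∑ k, e' k) (ε * b + ∑ m, e m) + Df M W a b i j := by
  have h1 := Finset.le_sup (f := fun q : Fin 2 × (Fin h → Fin 3) × (Fin h' → Fin 3) =>
    Lm M W q.1 (fun k => q.2.1 k) (fun m => q.2.2 m) -
      chi i j (q.1 * a + ∑ k, (q.2.1 k : ℕ)) (q.1 * b + ∑ m, (q.2.2 m : ℕ)))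
    (Finset.mem_univ ((⟨ε, by omega⟩, fun k => ⟨e' k, by have := he' k; omega⟩,
      fun m => ⟨e m, by have := he m; omega⟩) : Fin 2 × (Fin h → Fin 3) × (Fin h' → Fin 3)))
  have h2 : Lm M W ε e' e - chi i j (ε * a + ∑ k, e' k) (ε * b + ∑ m, e m) ≤ Df M W a b i j := h1
  omega

lemma UXK_La (hLAP : LAP_stmt) (hODM : ODM_stmt) {h h' : ℕ} (x : Fin h → ℂ) (y : Fin h' → ℂ)
    (M : Finset (Fin h × Fin h')) (hx : Function.Injective x) (hy : Function.Injective y)
    (g f1 : AA) (e : ℂ → ℕ) (he : ∀ z : ℂ × ℂ, od f1 z = e z.2) (d : Fin h × Fin h' → ℕ)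
    (hd : ∀ p ∈ M, od g (x p.1, y p.2) = d p) :
    La (ZZ x y M) (g * f1) = ∑ p ∈ M, ph (d p + e (y p.2)) := by
  rw [hLAP]
  unfold ZZ
  rw [Finset.sum_image]
  · refine Finset.sum_congr rfl fun p hp => ?_
    rw [hODM, he, UXK_ph, hd p hp]
  · intro p _ q _ hpq
    have h1 := Prod.mk.inj hpq
    exact Prod.ext (hx h1.1) (hy h1.2)

lemma UXK_sum {h' : ℕ} (y : Fin h' → ℂ) (hy : Function.Injective y) (e : ℂ → ℕ) (n : ℕ)
    (he : ∀ S : Finset ℂ, ∑ t ∈ S, e t ≤ n) : ∑ m, e (y m) ≤ n := by
  classical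
  have h1 := he (Finset.univ.image y)
  rwa [Finset.sum_image (fun a _ b _ hab => hy hab)] at h1

/-- the curves of bidegree `(1, 0)` -/
lemma UXK_line (g : AA) (hX : dX g = 1) (hY : dY g = 0) :
    ∃ α : ℂ, (∀ z : ℂ × ℂ, z.1 = α → od g z = 1) ∧ ∀ z : ℂ × ℂ, z.1 ≠ α → od g z = 0 := by
  have hg : g = C (g.coeff 0) := eq_C_of_natDegree_eq_zero hY
  set p := g.coeff 0 with hp
  have hdeg : p.natDegree = 1 := by
    rw [← hX, hg, dX_C]
  obtain ⟨c, d, hcd⟩ := exists_eq_X_add_C_of_natDegree_le_one (le_of_eq hdeg)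
  have hc : c ≠ 0 := by
    rintro rfl
    rw [hcd, C_0, zero_mul, zero_add, natDegree_C] at hdeg
    exact zero_ne_one hdeg
  have hev : ∀ z : ℂ × ℂ, ev z g = c * z.1 + d := by
    intro z
    rw [hg, ev_C, hcd]
    simp
  have hDx : ∀ z : ℂ × ℂ, ev z (Dx g) = c := by
    intro z
    rw [hg, Dx_C, ev_C, hcd]
    simp
  have hDb : ∀ z : ℂ × ℂ, ¬ Db z g := by
    intro z h
    exact hc ((hDx z).symm.trans h.2.1)
  refine ⟨-d / c, ?_, ?_⟩
  · intro z hz
    unfold od
    rw [if_neg (hDb z), if_pos]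
    rw [hev, hz]
    field_simp
    ring
  · intro z hz
    unfold od
    rw [if_neg (hDb z), if_neg]
    rw [hev]
    intro h
    apply hz
    rw [eq_div_iff hc]
    linear_combination h

theorem UXK : UXK_stmt := by
  intro hLAP hSMO hODM hFCX hROM hRLK hADF hTRM hROU κ h h' x y M W a b hκ hx hy hcol hrow hM hB i j hU f hf hfX hfY
  obtain ⟨hcard, hAa, -⟩ := hTRM h h' x y M hx hy hcol hrow hM
  have hA : AM M i ≤ Df M W a b i j := (hADF h h' M W a b i j).1
  rcases Nat.le_one_iff_eq_zero_or_eq_one.1 hfX with hf0 | hf1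
  · have h1 := hROU (ZZ x y M) f i j hf hf0 hfY
    rw [hAa] at h1
    rw [hf0]
    omega
  · obtain ⟨g, f1, hfg, hg, hgX, hf10, hf1X⟩ := hFCX f hf hf1
    obtain ⟨e, he2, heo, heS⟩ := hROM f1 hf10 hf1X
    have hdY : dY f = dY g + dY f1 := by rw [hfg, dY_mul hg.ne_zero hf10]
    have hes : ∑ m, e (y m) ≤ dY f1 := UXK_sum y hy e _ heS
    rw [hf1]
    by_cases hgY : 1 ≤ dY g
    · by_cases hcase : La (ZZ x y M) f ≤ chi i j 1 (dY f) + Aa (ZZ x y M) i
      · rw [hAa] at hcase
        omega
      · have hBg : BgX κ (ZZ x y M) g := by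
          refine hRLK κ (ZZ x y M) g f1 i j (by omega) hg hgX hgY hf10 hf1X ?_ (by omega) ?_
          · rw [hcard]
            exact hU
          · rw [← hdY, ← hfg]
            omega
        obtain ⟨ha, hb, hW⟩ := hB g (Or.inl hBg)
        have hLa := UXK_La hLAP hODM x y M hx hy g f1 e heo (fun p => if p ∈ W then 1 else 0) (by
          intro p hp
          have hDb := hSMO g (x p.1, y p.2) hg (Or.inl hgX) hgX.ge hgY
          unfold od
          rw [if_neg hDb]
          by_cases hpW : p ∈ W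
          · rw [if_pos ((hW p hp).1 hpW), if_pos hpW]
          · rw [if_neg (fun h => hpW ((hW p hp).2 h)), if_neg hpW])
        have hDf := UXK_Df M W a b i j 1 le_rfl (fun _ => 0) (fun _ => by omega) (fun m => e (y m))
          (fun m => he2 _)
        have hLm : Lm M W 1 (fun _ => 0) (fun m => e (y m)) = La (ZZ x y M) (g * f1) := by
          rw [hLa]
          rfl
        rw [hLm, ← hfg] at hDf
        refine hDf.trans (Nat.add_le_add_right (UXK_chi i j _ _ _ _ ?_ ?_) _)
        · rw [Finset.sum_const_zero, one_mul, ← ha, hgX, add_zero]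
        · rw [one_mul, ← hb, hdY]
          omega
    · have hgY0 : dY g = 0 := by omega
      obtain ⟨α, hα1, hα2⟩ := UXK_line g hgX hgY0
      by_cases hex : ∃ k0, x k0 = α
      · obtain ⟨k0, hk0⟩ := hex
        have hLa := UXK_La hLAP hODM x y M hx hy g f1 e heo (fun p => if p.1 = k0 then 1 else 0) (by
          intro p hp
          by_cases hpk : p.1 = k0
          · rw [if_pos hpk]
            exact hα1 _ (by rw [hpk]; exact hk0)
          · rw [if_neg hpk]
            refine hα2 _ fun h => hpk (hx ?_)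
            rw [hk0]
            exact h)
        have hDf := UXK_Df M W a b i j 0 (by omega) (fun k => if k = k0 then 1 else 0)
          (fun k => by split_ifs <;> omega) (fun m => e (y m)) (fun m => he2 _)
        have hLm : Lm M W 0 (fun k => if k = k0 then 1 else 0) (fun m => e (y m)) =
            La (ZZ x y M) (g * f1) := by
          rw [hLa]
          unfold Lm
          refine Finset.sum_congr rfl fun p _ => ?_
          congr 1
          rw [ite_self, zero_add]
        rw [hLm, ← hfg] at hDf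
        refine hDf.trans (Nat.add_le_add_right (UXK_chi i j _ _ _ _ ?_ ?_) _)
        · rw [zero_mul, zero_add, Finset.sum_ite_eq' Finset.univ k0, if_pos (Finset.mem_univ _)]
        · rw [zero_mul, zero_add]
          omega
      · have hLa := UXK_La hLAP hODM x y M hx hy g f1 e heo (fun _ => 0) (by
          intro p hp
          exact hα2 _ fun h => hex ⟨p.1, h⟩)
        have hDf := UXK_Df M W a b i j 0 (by omega) (fun _ => 0)
          (fun _ => by omega) (fun m => e (y m)) (fun m => he2 _)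
        have hLm : Lm M W 0 (fun _ => 0) (fun m => e (y m)) = La (ZZ x y M) (g * f1) := by
          rw [hLa]
          unfold Lm
          refine Finset.sum_congr rfl fun p _ => ?_
          congr 1
          rw [ite_self, zero_add]
        rw [hLm, ← hfg] at hDf
        refine hDf.trans (Nat.add_le_add_right (UXK_chi i j _ _ _ _ ?_ ?_) _)
        · rw [zero_mul, zero_add, Finset.sum_const_zero]
          omega
        · rw [zero_mul, zero_add]
          omega

end

end Pool.Agent.HFE
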